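import Pool.Agent.N587.FX.Main

set_option autoImplicit false
set_option linter.unusedSectionVars false

/-!
The asymptotic form.
-/

namespace Pool.Agent.N587.FX

open Finset Pool.Agent.N587.OT Pool.Agent.N587.UG

open scoped Classical

/-- the last query needs formulas of almost quadratic size -/
theorem asym (d : ℕ) {ε : ℝ} (hε : 0 < ε) : ∃ η : ℝ, 0 < η ∧ ∃ N₀ : ℕ,
    ∀ {n s l m L : ℕ} (C : OCircuit n s l d) (W : Fin m → Fin l → Formula (Node n s))
    {Y Z : (m : ℕ) → (Fin m → Fin l → Bool) → Prop} {γ : ℝ}, N₀ ≤ n →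
    (s : ℝ) ≤ 2 ^ ((n : ℝ) ^ η) → 1 ≤ l → (l : ℝ) ≤ (n : ℝ) ^ η → γ ≤ 1 → 1 ≤ γ * (n : ℝ) ^ η →
    (∀ m b c, Y m b → Z m c → γ * m ≤ ((univ.filter fun i => b i ≠ c i).card : ℝ)) →
    (∀ m b, Y m b → 0 < m) → (∀ i c, (W i c).leaves ≤ L) → Reduces C W Y Z →
    (n : ℝ) ^ (2 - ε) < L := by
  obtain ⟨A, hA⟩ : ∃ A : ℝ, A = 6 * 2 ^ (63 * d) := ⟨_, rfl⟩
  have hA0 : 6 ≤ A := by
    rw [hA]
    have : (1 : ℝ) ≤ 2 ^ (63 * d) := one_le_pow₀ (by norm_num)
    linarith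
  obtain ⟨η, hη⟩ : ∃ η : ℝ, η = ε / (2 * (5 * d + 4)) := ⟨_, rfl⟩
  have hη0 : 0 < η := by rw [hη]; positivity
  refine ⟨η, hη0, ⌈A ^ (1 / η)⌉₊ + 1, ?_⟩
  intro n s l m L C W Y Z γ hn hs hl1 hl hγ1 hγ hgap hpos hL hred
  have hn1 : 1 ≤ n := by omega
  have hn0 : (0 : ℝ) < n := by exact_mod_cast hn1
  have hl0 : (1 : ℝ) ≤ l := by exact_mod_cast hl1
  obtain ⟨y, hy⟩ : ∃ y : ℝ, y = (n : ℝ) ^ η := ⟨_, rfl⟩
  rw [← hy] at hs hl hγ
  have hy0 : 0 < y := by rw [hy]; positivity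
  have hAy : A < y := by
    have h1 : A ^ (1 / η) < n := by
      have h2 := Nat.le_ceil (A ^ (1 / η))
      have h3 : ((⌈A ^ (1 / η)⌉₊ + 1 : ℕ) : ℝ) ≤ n := by exact_mod_cast hn
      push_cast at h3
      linarith
    have h2 : (A ^ (1 / η)) ^ η < (n : ℝ) ^ η :=
      Real.rpow_lt_rpow (by positivity) h1 hη0
    rw [← Real.rpow_mul (by linarith), one_div, inv_mul_cancel₀ hη0.ne', Real.rpow_one] at h2
    rw [hy]
    exact h2
  have hγ0 : 0 < γ := by
    by_contra hcon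
    push Not at hcon
    have : γ * y ≤ 0 := mul_nonpos_of_nonpos_of_nonneg hcon hy0.le
    linarith
  obtain ⟨u, hu⟩ : ∃ u : ℕ, u = ⌈y⌉₊ := ⟨_, rfl⟩
  have hu1 : y ≤ u := by rw [hu]; exact Nat.le_ceil _
  have hu2 : (u : ℝ) ≤ 2 * y := by
    have h1 : (u : ℝ) < y + 1 := by
      rw [hu]
      exact Nat.ceil_lt_add_one hy0.le
    linarith
  have huy : 6 ≤ u := by
    have : (6 : ℝ) ≤ u := by linarith
    exact_mod_cast this
  have hs2 : s ≤ 2 ^ u := by
    have h1 : (2 : ℝ) ^ y ≤ 2 ^ (u : ℝ) :=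
      Real.rpow_le_rpow_of_exponent_le (by norm_num) hu1
    rw [Real.rpow_natCast] at h1
    have h2 : (s : ℝ) ≤ 2 ^ u := hs.trans h1
    exact_mod_cast h2
  have hsq : (u : ℝ) ^ 2 ≤ 2 ^ u := by
    have h1 : ∀ k : ℕ, 4 ≤ k → k ^ 2 ≤ 2 ^ k := by
      intro k hk
      induction k, hk using Nat.le_induction with
      | base => norm_num
      | succ k hk ih =>
        rw [pow_succ 2 k]
        nlinarith
    exact_mod_cast h1 u (by omega)
  have hl2 : (l : ℝ) ≤ γ * 2 ^ u := by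
    have h1 : (1 : ℝ) ≤ γ * u := hγ.trans (mul_le_mul_of_nonneg_left hu1 hγ0.le)
    calc (l : ℝ) ≤ u := by linarith
      _ ≤ (γ * u) * u := le_mul_of_one_le_left (Nat.cast_nonneg _) h1
      _ = γ * (u : ℝ) ^ 2 := by ring
      _ ≤ _ := mul_le_mul_of_nonneg_left hsq hγ0.le
  have hmain := formula_bound (C := C) (L := L) W hL (by omega) hs2 hl1 hγ0 hγ1 hl2 hgap hpos hred
  have h1 : (2 ^ 60 * ((l : ℝ) * u ^ 3)) ^ d * (l * (3 * u * Real.sqrt L)) ≤
      A * y ^ (4 * d + 2) * Real.sqrt L := by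
    have e1 : (u : ℝ) ^ 3 ≤ (2 * y) ^ 3 := pow_le_pow_left₀ (Nat.cast_nonneg _) hu2 3
    calc (2 ^ 60 * ((l : ℝ) * u ^ 3)) ^ d * (l * (3 * u * Real.sqrt L))
        ≤ (2 ^ 60 * (y * (2 * y) ^ 3)) ^ d * (y * (3 * (2 * y) * Real.sqrt L)) := by
          apply mul_le_mul _ _ (by positivity) (by positivity)
          · apply pow_le_pow_left₀ (by positivity)
            apply mul_le_mul_of_nonneg_left _ (by positivity)
            exact mul_le_mul hl e1 (by positivity) hy0.le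
          · apply mul_le_mul hl _ (by positivity) hy0.le
            apply mul_le_mul_of_nonneg_right _ (Real.sqrt_nonneg _)
            linarith
      _ = _ := by
          rw [hA]
          have e2 : (2 ^ 60 * (y * (2 * y) ^ 3) : ℝ) = 2 ^ 63 * y ^ 4 := by ring
          rw [e2, mul_pow, ← pow_mul, ← pow_mul]
          ring
  have h2 : (n : ℝ) ≤ A * y ^ (5 * d + 3) * Real.sqrt L := by
    have e1 : (1 : ℝ) ≤ γ ^ (d + 1) * y ^ (d + 1) := by
      rw [← mul_pow]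
      exact one_le_pow₀ hγ
    calc (n : ℝ) ≤ n * (γ ^ (d + 1) * y ^ (d + 1)) := le_mul_of_one_le_right hn0.le e1
      _ = (n * γ ^ (d + 1)) * y ^ (d + 1) := by ring
      _ ≤ (A * y ^ (4 * d + 2) * Real.sqrt L) * y ^ (d + 1) :=
          mul_le_mul_of_nonneg_right (hmain.trans h1) (by positivity)
      _ = _ := by ring
  have hyε : y ^ (5 * d + 4) = (n : ℝ) ^ (ε / 2) := by
    rw [hy, ← Real.rpow_natCast, ← Real.rpow_mul hn0.le]
    congr 1
    rw [hη]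
    push_cast
    field_simp
  have hsL : 0 < Real.sqrt L := by
    by_contra hcon
    have : Real.sqrt L = 0 := le_antisymm (not_lt.1 hcon) (Real.sqrt_nonneg _)
    rw [this, mul_zero] at h2
    linarith
  have h3 : (n : ℝ) < (n : ℝ) ^ (ε / 2) * Real.sqrt L := by
    calc (n : ℝ) ≤ A * y ^ (5 * d + 3) * Real.sqrt L := h2
      _ < y * y ^ (5 * d + 3) * Real.sqrt L := by
          apply mul_lt_mul_of_pos_right _ hsL
          exact mul_lt_mul_of_pos_right hAy (by positivity)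
      _ = y ^ (5 * d + 4) * Real.sqrt L := by ring
      _ = _ := by rw [hyε]
  have h4 : (n : ℝ) ^ (1 - ε / 2) < Real.sqrt L := by
    rw [Real.rpow_sub hn0, Real.rpow_one, div_lt_iff₀ (by positivity)]
    linarith
  calc (n : ℝ) ^ (2 - ε) = ((n : ℝ) ^ (1 - ε / 2)) ^ 2 := by
        rw [← Real.rpow_natCast, ← Real.rpow_mul hn0.le]
        congr 1
        push_cast
        ring
    _ < (Real.sqrt L) ^ 2 := pow_lt_pow_left₀ h4 (by positivity) (by norm_num)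
    _ = L := Real.sq_sqrt (Nat.cast_nonneg _)

end Pool.Agent.N587.FX
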