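import Pool.Agent.N587.UG.Form

set_option autoImplicit false
set_option linter.unusedSectionVars false

/-!
Khrapchenko's bound for formulas whose leaves are functions of small sensitivity.
-/

namespace Pool.Agent.N587.FX

open Finset Pool.Agent.N587.UG

open scoped Classical

variable {I V : Type} [Fintype I] [DecidableEq I]

/-- the number of edges in the directions of `S` from `A` to `B` -/
noncomputable def edg (S : Finset I) (A B : Finset (I → Bool)) : ℕ :=
  ∑ x ∈ A, (S.filter fun j => Y601.SSE.flip j x ∈ B).card

theorem edg_union_right (S : Finset I) (A B B' : Finset (I → Bool)) (h : Disjoint B B') :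
    edg S A (B ∪ B') = edg S A B + edg S A B' := by
  unfold edg
  rw [← sum_add_distrib]
  refine sum_congr rfl fun x _ => ?_
  rw [← card_union_of_disjoint]
  · congr 1
    ext j
    simp only [mem_filter, mem_union]
    tauto
  · rw [disjoint_left]
    intro j h1 h2
    rw [mem_filter] at h1 h2
    exact (disjoint_left.1 h) h1.2 h2.2

theorem edg_union_left (S : Finset I) (A A' B : Finset (I → Bool)) (h : Disjoint A A') :
    edg S (A ∪ A') B = edg S A B + edg S A' B := by
  unfold edg
  rw [sum_union h]

theorem edg_comm (S : Finset I) (A B : Finset (I → Bool)) : edg S A B = edg S B A := by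
  have key : ∀ A B : Finset (I → Bool), edg S A B =
      ∑ j ∈ S, ∑ x, if x ∈ A ∧ Y601.SSE.flip j x ∈ B then 1 else 0 := by
    intro A B
    unfold edg
    rw [sum_comm, ← sum_subset (subset_univ A)]
    · refine sum_congr rfl fun x hx => ?_
      rw [card_filter]
      refine sum_congr rfl fun j _ => ?_
      simp only [hx, true_and]
    · intro x _ hx
      apply sum_eq_zero
      intro j _
      rw [if_neg]
      exact fun h => hx h.1
  rw [key, key]
  refine sum_congr rfl fun j _ => ?_
  refine Fintype.sum_equiv ⟨Y601.SSE.flip j, Y601.SSE.flip j, Y601.SSE.flip_flip j,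
    Y601.SSE.flip_flip j⟩ _ _ fun x => ?_
  show (if x ∈ A ∧ Y601.SSE.flip j x ∈ B then 1 else 0) =
    if Y601.SSE.flip j x ∈ B ∧ Y601.SSE.flip j (Y601.SSE.flip j x) ∈ A then 1 else 0
  rw [Y601.SSE.flip_flip]
  simp only [and_comm]

theorem edg_le_left {S : Finset I} {t : ℕ} {A B : Finset (I → Bool)} (h : ∀ x ∈ A,
    (S.filter fun j => Y601.SSE.flip j x ∈ B).card ≤ t) : edg S A B ≤ A.card * t := by
  unfold edg
  exact sum_le_card_nsmul _ _ _ h

/-- Khrapchenko's bound: the leaves are functions `h v`, each of which is sensitive to at most `t`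
coordinates of `S` at every point. -/
theorem khrapchenko {S : Finset I} {t : ℕ} (h : V → (I → Bool) → Bool)
    (hs : ∀ v x, (S.filter fun j => h v (Y601.SSE.flip j x) ≠ h v x).card ≤ t) (F : Formula V) :
    ∀ A B : Finset (I → Bool), (∀ x ∈ A, F.eval (fun v => h v x) = true) →
      (∀ x ∈ B, F.eval (fun v => h v x) = false) →
      (edg S A B : ℝ) ^ 2 ≤ (t ^ 2 * F.leaves) * (A.card * B.card) := by
  induction F with
  | const b =>
    intro A B hA hB
    cases b
    · have : A = ∅ := by
        rw [eq_empty_iff_forall_notMem]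
        intro x hx
        have := hA x hx
        simp [Formula.eval] at this
      subst this
      simp [edg]
    · have : B = ∅ := by
        rw [eq_empty_iff_forall_notMem]
        intro x hx
        have := hB x hx
        simp [Formula.eval] at this
      subst this
      simp [edg]
  | lit i b =>
    intro A B hA hB
    have hone : ∀ x : I → Bool, ∀ T : Finset (I → Bool),
        (∀ y ∈ T, h i y ≠ h i x) →
        (S.filter fun j => Y601.SSE.flip j x ∈ T).card ≤ t := by
      intro x T hT
      refine (card_le_card ?_).trans (hs i x)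
      intro j hj
      rw [mem_filter] at hj ⊢
      exact ⟨hj.1, hT _ hj.2⟩
    have hne : ∀ x ∈ A, ∀ y ∈ B, h i y ≠ h i x := by
      intro x hx y hy he
      have e1 := hA x hx
      have e2 := hB y hy
      simp only [Formula.eval] at e1 e2
      rw [he, e1] at e2
      exact absurd e2 (by simp)
    have h1 : edg S A B ≤ A.card * t := edg_le_left fun x hx => hone x B fun y hy => hne x hx y hy
    have h2 : edg S A B ≤ B.card * t := by
      rw [edg_comm]
      exact edg_le_left fun x hx => hone x A fun y hy => (hne y hy x hx).symm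
    have h1' : (edg S A B : ℝ) ≤ A.card * t := by exact_mod_cast h1
    have h2' : (edg S A B : ℝ) ≤ B.card * t := by exact_mod_cast h2
    have h0 : (0 : ℝ) ≤ edg S A B := Nat.cast_nonneg _
    simp only [Formula.leaves, Nat.cast_one, mul_one]
    rw [sq]
    calc (edg S A B : ℝ) * edg S A B ≤ (A.card * t) * (B.card * t) :=
          mul_le_mul h1' h2' h0 (by positivity)
      _ = _ := by ring
  | and F G ihF ihG =>
    intro A B hA hB
    obtain ⟨B1, hB1⟩ : ∃ B1, B1 = B.filter fun x => F.eval (fun v => h v x) = false := ⟨_, rfl⟩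
    obtain ⟨B2, hB2⟩ : ∃ B2, B2 = B.filter fun x => ¬ F.eval (fun v => h v x) = false := ⟨_, rfl⟩
    have hu : B1 ∪ B2 = B := by rw [hB1, hB2]; exact filter_union_filter_not_eq _ _
    have hd : Disjoint B1 B2 := by rw [hB1, hB2]; exact disjoint_filter_filter_not _ _ _
    have hA' : ∀ x ∈ A, F.eval (fun v => h v x) = true ∧ G.eval (fun v => h v x) = true := by
      intro x hx
      have := hA x hx
      simpa [Formula.eval] using this
    have h1 := ihF A B1 (fun x hx => (hA' x hx).1) (fun x hx => by
      rw [hB1, mem_filter] at hx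
      exact hx.2)
    have h2 := ihG A B2 (fun x hx => (hA' x hx).2) (fun x hx => by
      rw [hB2, mem_filter] at hx
      have h3 := hB x hx.1
      have h4 : F.eval (fun v => h v x) = true := by simpa using hx.2
      simpa [Formula.eval, h4] using h3)
    have h3 : edg S A B = edg S A B1 + edg S A B2 := by
      rw [← edg_union_right S A B1 B2 hd, hu]
    have h4 : (B.card : ℝ) = B1.card + B2.card := by
      rw [← hu, card_union_of_disjoint hd]
      push_cast
      rfl
    rw [h3, h4]
    simp only [Formula.leaves]
    push_cast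
    rw [mul_add]
    exact cs h1 h2 (by positivity) (by positivity) (Nat.cast_nonneg _)
      (Nat.cast_nonneg _) (Nat.cast_nonneg _)
  | or F G ihF ihG =>
    intro A B hA hB
    obtain ⟨A1, hA1⟩ : ∃ A1, A1 = A.filter fun x => F.eval (fun v => h v x) = true := ⟨_, rfl⟩
    obtain ⟨A2, hA2⟩ : ∃ A2, A2 = A.filter fun x => ¬ F.eval (fun v => h v x) = true := ⟨_, rfl⟩
    have hu : A1 ∪ A2 = A := by rw [hA1, hA2]; exact filter_union_filter_not_eq _ _
    have hd : Disjoint A1 A2 := by rw [hA1, hA2]; exact disjoint_filter_filter_not _ _ _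
    have hB' : ∀ x ∈ B, F.eval (fun v => h v x) = false ∧ G.eval (fun v => h v x) = false := by
      intro x hx
      have := hB x hx
      simpa [Formula.eval] using this
    have h1 := ihF A1 B (fun x hx => by
      rw [hA1, mem_filter] at hx
      exact hx.2) (fun x hx => (hB' x hx).1)
    have h2 := ihG A2 B (fun x hx => by
      rw [hA2, mem_filter] at hx
      have h3 := hA x hx.1
      have h4 : F.eval (fun v => h v x) = false := by simpa using hx.2
      simpa [Formula.eval, h4] using h3) (fun x hx => (hB' x hx).2)
    have h3 : edg S A B = edg S A1 B + edg S A2 B := by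
      rw [← edg_union_left S A1 A2 B hd, hu]
    have h4 : (A.card : ℝ) = A1.card + A2.card := by
      rw [← hu, card_union_of_disjoint hd]
      push_cast
      rfl
    rw [h3, h4]
    simp only [Formula.leaves]
    push_cast
    rw [mul_comm (A1.card : ℝ)] at h1
    rw [mul_comm (A2.card : ℝ)] at h2
    have h5 := cs h1 h2 (by positivity) (by positivity) (Nat.cast_nonneg _)
      (Nat.cast_nonneg _) (Nat.cast_nonneg _)
    calc _ ≤ _ := h5
      _ = _ := by ring

/-- the average sensitivity of a formula whose leaves have sensitivity at most `t` -/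
theorem avg_sens {S : Finset I} {t : ℕ} (h : V → (I → Bool) → Bool)
    (hs : ∀ v x, (S.filter fun j => h v (Y601.SSE.flip j x) ≠ h v x).card ≤ t) (F : Formula V) :
    (∑ x, ((S.filter fun j => F.eval (fun v => h v (Y601.SSE.flip j x)) ≠
      F.eval (fun v => h v x)).card : ℝ)) ^ 2 ≤ t ^ 2 * F.leaves * (2 ^ Fintype.card I) ^ 2 := by
  obtain ⟨A, hA⟩ : ∃ A : Finset (I → Bool), A = univ.filter fun x =>
    F.eval (fun v => h v x) = true := ⟨_, rfl⟩
  obtain ⟨B, hB⟩ : ∃ B : Finset (I → Bool), B = univ.filter fun x =>
    ¬ F.eval (fun v => h v x) = true := ⟨_, rfl⟩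
  have hu : A ∪ B = univ := by rw [hA, hB]; exact filter_union_filter_not_eq _ _
  have hd : Disjoint A B := by rw [hA, hB]; exact disjoint_filter_filter_not _ _ _
  have h1 : ∑ x, (S.filter fun j => F.eval (fun v => h v (Y601.SSE.flip j x)) ≠
      F.eval (fun v => h v x)).card = edg S A B + edg S B A := by
    rw [← hu, sum_union hd]
    congr 1
    · unfold edg
      refine sum_congr rfl fun x hx => ?_
      congr 1
      apply filter_congr
      intro j _
      rw [hA, mem_filter] at hx
      rw [hx.2, hB, mem_filter]
      simp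
    · unfold edg
      refine sum_congr rfl fun x hx => ?_
      congr 1
      apply filter_congr
      intro j _
      rw [hB, mem_filter] at hx
      have h2 : F.eval (fun v => h v x) = false := by simpa using hx.2
      rw [h2, hA, mem_filter]
      simp
  have h2 : (∑ x, ((S.filter fun j => F.eval (fun v => h v (Y601.SSE.flip j x)) ≠
      F.eval (fun v => h v x)).card : ℝ)) = 2 * edg S A B := by
    have : ((∑ x, (S.filter fun j => F.eval (fun v => h v (Y601.SSE.flip j x)) ≠
        F.eval (fun v => h v x)).card : ℕ) : ℝ) = 2 * edg S A B := by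
      rw [h1, edg_comm S B A]
      push_cast
      ring
    rw [← this]
    push_cast
    rfl
  have h3 := khrapchenko h hs F A B (fun x hx => by rw [hA, mem_filter] at hx; exact hx.2)
    (fun x hx => by rw [hB, mem_filter] at hx; simpa using hx.2)
  have h4 : (A.card : ℝ) + B.card = 2 ^ Fintype.card I := by
    have : A.card + B.card = Fintype.card (I → Bool) := by
      rw [← card_union_of_disjoint hd, hu, card_univ]
    rw [Fintype.card_fun, Fintype.card_bool] at this
    exact_mod_cast this
  rw [h2, ← h4]
  have h5 : 4 * ((A.card : ℝ) * B.card) ≤ (A.card + B.card) ^ 2 := by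
    nlinarith [sq_nonneg ((A.card : ℝ) - B.card)]
  have h6 : (0 : ℝ) ≤ t ^ 2 * F.leaves := by positivity
  have e1 : (2 * (edg S A B : ℝ)) ^ 2 = 4 * (edg S A B : ℝ) ^ 2 := by ring
  have e2 : ((t : ℝ) ^ 2 * F.leaves) * (4 * ((A.card : ℝ) * B.card)) ≤
      (t ^ 2 * F.leaves) * ((A.card : ℝ) + B.card) ^ 2 := mul_le_mul_of_nonneg_left h5 h6
  rw [e1]
  linarith

end Pool.Agent.N587.FX
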