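import Pool.Agent.N587.FX.Kh
import Pool.Agent.N587.OX.Main

set_option autoImplicit false
set_option linter.unusedSectionVars false

/-!
Reductions whose last query is computed by small formulas, or by unate functions.
-/

namespace Pool.Agent.N587.FX

open Finset H568R2 Pool.Agent.N587.OT Pool.Agent.N587.OX Pool.Agent.N587.UG

open scoped Classical

variable {n s l d m : ℕ}

/-- Words which change in many symbols whenever a bit is flipped have bits of large average
sensitivity. -/
theorem sens_law {S : Finset (Fin n)} (w : (Fin n → Bool) → Fin m → Fin l → Bool) {γ K : ℝ}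
    (hm : 0 < m)
    (hflip : ∀ x, ∀ j ∈ S, γ * m ≤
      ((univ.filter fun i => w x i ≠ w (Y601.SSE.flip j x) i).card : ℝ))
    (hK : ∀ i c, ∑ x, ((S.filter fun j => w (Y601.SSE.flip j x) i c ≠ w x i c).card : ℝ) ≤
      K * 2 ^ n) :
    γ * S.card ≤ l * K := by
  have hm0 : (0 : ℝ) < m := by exact_mod_cast hm
  have h1 : ∀ (x : Fin n → Bool) (j : Fin n),
      ((univ.filter fun i => w x i ≠ w (Y601.SSE.flip j x) i).card : ℝ) ≤
      ∑ i : Fin m, ∑ c : Fin l, if w (Y601.SSE.flip j x) i c ≠ w x i c then (1 : ℝ) else 0 := by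
    intro x j
    rw [card_filter]
    push_cast
    refine sum_le_sum fun i _ => ?_
    have hnn : ∀ c ∈ (univ : Finset (Fin l)), (0 : ℝ) ≤
        (if w (Y601.SSE.flip j x) i c ≠ w x i c then (1 : ℝ) else 0) := by
      intro c _
      split_ifs <;> norm_num
    by_cases h : w x i = w (Y601.SSE.flip j x) i
    · rw [if_neg (not_not.2 h)]
      exact sum_nonneg hnn
    · rw [if_pos h]
      obtain ⟨c, hc⟩ : ∃ c, w (Y601.SSE.flip j x) i c ≠ w x i c := by
        by_contra hcon
        push Not at hcon
        exact h (funext fun c => (hcon c).symm)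
      refine le_trans ?_ (single_le_sum hnn (mem_univ c))
      rw [if_pos hc]
  have h2 : (2 : ℝ) ^ n * (S.card * (γ * m)) ≤ ∑ x : Fin n → Bool, ∑ j ∈ S,
      ∑ i : Fin m, ∑ c : Fin l, if w (Y601.SSE.flip j x) i c ≠ w x i c then (1 : ℝ) else 0 := by
    have hc : ((univ : Finset (Fin n → Bool)).card : ℝ) = 2 ^ n := by
      rw [card_univ, Fintype.card_fun, Fintype.card_bool, Fintype.card_fin]
      push_cast
      rfl
    calc (2 : ℝ) ^ n * (S.card * (γ * m)) = ∑ _x : Fin n → Bool, ∑ _j ∈ S, γ * m := by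
          rw [sum_const, sum_const, nsmul_eq_mul, nsmul_eq_mul, hc]
      _ ≤ _ := sum_le_sum fun x _ => sum_le_sum fun j hj => (hflip x j hj).trans (h1 x j)
  have h3 : (∑ x : Fin n → Bool, ∑ j ∈ S,
      ∑ i : Fin m, ∑ c : Fin l, if w (Y601.SSE.flip j x) i c ≠ w x i c then (1 : ℝ) else 0) =
      ∑ i : Fin m, ∑ c : Fin l, ∑ x : Fin n → Bool,
        ((S.filter fun j => w (Y601.SSE.flip j x) i c ≠ w x i c).card : ℝ) := by
    have e1 : ∀ x : Fin n → Bool, (∑ j ∈ S, ∑ i : Fin m, ∑ c : Fin l,
        if w (Y601.SSE.flip j x) i c ≠ w x i c then (1 : ℝ) else 0) =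
        ∑ i : Fin m, ∑ c : Fin l,
          ((S.filter fun j => w (Y601.SSE.flip j x) i c ≠ w x i c).card : ℝ) := by
      intro x
      rw [sum_comm]
      refine sum_congr rfl fun i _ => ?_
      rw [sum_comm]
      refine sum_congr rfl fun c _ => ?_
      rw [card_filter]
      push_cast
      rfl
    rw [sum_congr rfl fun x _ => e1 x, sum_comm]
    refine sum_congr rfl fun i _ => ?_
    rw [sum_comm]
  have h4 : (∑ i : Fin m, ∑ c : Fin l, ∑ x : Fin n → Bool,
        ((S.filter fun j => w (Y601.SSE.flip j x) i c ≠ w x i c).card : ℝ)) ≤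
      m * (l * (K * 2 ^ n)) := by
    calc _ ≤ ∑ _i : Fin m, ∑ _c : Fin l, K * 2 ^ n :=
          sum_le_sum fun i _ => sum_le_sum fun c _ => hK i c
      _ = _ := by
          rw [sum_const, sum_const, card_univ, card_univ, Fintype.card_fin, Fintype.card_fin,
            nsmul_eq_mul, nsmul_eq_mul]
  rw [h3] at h2
  have h5 : (2 ^ n * m : ℝ) * (γ * S.card) ≤ (2 ^ n * m) * (l * K) := by
    calc (2 ^ n * m : ℝ) * (γ * S.card) = 2 ^ n * (S.card * (γ * m)) := by ring
      _ ≤ _ := h2
      _ ≤ _ := h4
      _ = _ := by ring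
  exact le_of_mul_le_mul_left h5 (by positivity)

variable {C : OCircuit n s l d} {Y Z : (m : ℕ) → (Fin m → Fin l → Bool) → Prop}

/-- the word which is computed by the formulas `W` from the values `v` of the nodes -/
def word (W : Fin m → Fin l → Formula (Node n s)) (v : Node n s → Bool) : Fin m → Fin l → Bool :=
  fun i c => (W i c).eval v

/-- The circuit with oracle gates and the formulas `W` over its nodes reduce parity to the promise
problem: for every oracle which solves the promise problem, odd inputs give no-instances and the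
other inputs give yes-instances. -/
def Reduces (C : OCircuit n s l d) (W : Fin m → Fin l → Formula (Node n s))
    (Y Z : (m : ℕ) → (Fin m → Fin l → Bool) → Prop) : Prop :=
  ∀ O : Oracle l, Solves O Y Z → ∀ (x : Fin n → Bool) (v : Fin s → Bool), C.Run O x v →
    (¬ Odd (univ.filter fun i => x i = true).card → Y m (word W (Sum.elim x v))) ∧
    (Odd (univ.filter fun i => x i = true).card → Z m (word W (Sum.elim x v)))

/-- If the last query is computed by formulas over the nodes of a circuit of depth `d` with oracle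
gates, then some formula is large. -/
theorem formula_bound {u L : ℕ} (W : Fin m → Fin l → Formula (Node n s))
    (hL : ∀ i c, (W i c).leaves ≤ L) (hu : 1 ≤ u) (hs : s ≤ 2 ^ u) (hl1 : 1 ≤ l) {γ : ℝ}
    (hγ0 : 0 < γ) (hγ1 : γ ≤ 1) (hl : (l : ℝ) ≤ γ * 2 ^ u)
    (hgap : ∀ m b c, Y m b → Z m c → γ * m ≤ ((univ.filter fun i => b i ≠ c i).card : ℝ))
    (hpos : ∀ m b, Y m b → 0 < m) (hred : Reduces C W Y Z) :
    (n : ℝ) * γ ^ (d + 1) ≤ (2 ^ 60 * (l * u ^ 3)) ^ d * (l * (3 * u * Real.sqrt L)) := by
  rcases Nat.eq_zero_or_pos n with hn | hn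
  · subst hn
    simp only [Nat.cast_zero, zero_mul]
    positivity
  obtain ⟨ρ, F, h1, h2, h3⟩ := iter (C := C) hu hs hl1 hγ0 hγ1 hl hn hgap hpos d le_rfl
  have hYZ : ∀ m a, Y m a → Z m a → False := by
    intro m a hY hZ
    have e1 := hgap m a a hY hZ
    have e2 := hpos m a hY
    have e3 : (0 : ℝ) < m := by exact_mod_cast e2
    have e4 : (univ.filter fun i => a i ≠ a i) = ∅ := by simp
    rw [e4, card_empty, Nat.cast_zero] at e1
    have := mul_pos hγ0 e3
    linarith
  obtain ⟨h, hh⟩ : ∃ h : Node n s → (Fin n → Bool) → Bool,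
      h = fun v x => Sum.elim (ov ρ x) (fun g => F g x) v := ⟨_, rfl⟩
  obtain ⟨w, hw⟩ : ∃ w : (Fin n → Bool) → Fin m → Fin l → Bool,
      w = fun x i c => (W i c).eval (fun v => h v x) := ⟨_, rfl⟩
  have hsens : ∀ v x, ((st ρ).filter fun j => h v (Y601.SSE.flip j x) ≠ h v x).card ≤ 3 * u := by
    intro v x
    have hdt := node_dt (C := C) (t := d) (K := 3 * u) (by omega) h2 (ρ := ρ) v
      (fun g _ => C.level_lt g)
    have := Y601.SSE.sens_le hdt (st ρ) x
    rw [hh]
    exact le_of_eq_of_le (by congr!) this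
  have hout : ∀ x : Fin n → Bool, (¬ Odd (univ.filter fun i => ov ρ x i = true).card →
      Y m (w x)) ∧ (Odd (univ.filter fun i => ov ρ x i = true).card → Z m (w x)) := by
    intro x
    obtain ⟨O, hO1, hO2⟩ := h3.oracle hYZ x
    have := hred O hO1 (ov ρ x) _ hO2
    rw [hw, hh]
    exact this
  have hm : 0 < m := by
    by_cases hodd : Odd (univ.filter fun i => ov ρ (fun _ => false) i = true).card
    · have hst : 0 < (st ρ).card := by
        rcases Nat.eq_zero_or_pos (st ρ).card with h0 | h0
        · rw [h0, Nat.cast_zero, mul_zero] at h1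
          have hn0 : (0 : ℝ) < n := by exact_mod_cast hn
          have : 0 < (n : ℝ) * γ ^ d := by positivity
          linarith
        · exact h0
      obtain ⟨j, hj⟩ := card_pos.1 hst
      rw [mem_st] at hj
      have e2 := (hout (Y601.SSE.flip j fun _ => false)).1
      rw [Y601.SSE.ov_flip ρ j hj, Y601.SSE.odd_flip j (ov ρ fun _ => false)] at e2
      exact hpos _ _ (e2 (not_not.2 hodd))
    · exact hpos _ _ ((hout _).1 hodd)
  have hflip : ∀ x, ∀ j ∈ st ρ, γ * m ≤
      ((univ.filter fun i => w x i ≠ w (Y601.SSE.flip j x) i).card : ℝ) := by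
    intro x j hj
    rw [mem_st] at hj
    have e2 := hout (Y601.SSE.flip j x)
    rw [Y601.SSE.ov_flip ρ j hj, Y601.SSE.odd_flip j (ov ρ x)] at e2
    by_cases hodd : Odd (univ.filter fun i => ov ρ x i = true).card
    · have e3 := hgap m _ _ (e2.1 (not_not.2 hodd)) ((hout x).2 hodd)
      refine e3.trans (le_of_eq ?_)
      congr 2
      ext i
      simp only [mem_filter, mem_univ, true_and]
      exact ne_comm
    · exact hgap m _ _ ((hout x).1 hodd) (e2.2 hodd)
  have hK : ∀ i c, ∑ x, (((st ρ).filter fun j =>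
      w (Y601.SSE.flip j x) i c ≠ w x i c).card : ℝ) ≤ (3 * u * Real.sqrt L) * 2 ^ n := by
    intro i c
    have e1 := avg_sens h hsens (W i c)
    rw [Fintype.card_fin] at e1
    have e2 : ((W i c).leaves : ℝ) ≤ L := by exact_mod_cast hL i c
    apply le_of_sq_le_sq _ (by positivity)
    have e3 : ((3 * u * Real.sqrt L) * 2 ^ n : ℝ) ^ 2 = ((3 * u : ℕ) : ℝ) ^ 2 * L * (2 ^ n) ^ 2 := by
      rw [mul_pow, mul_pow, Real.sq_sqrt (Nat.cast_nonneg _)]
      push_cast
      ring
    rw [e3]
    refine le_trans (le_of_eq ?_) (e1.trans ?_)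
    · rw [hw]
    · apply mul_le_mul_of_nonneg_right _ (by positivity)
      exact mul_le_mul_of_nonneg_left e2 (by positivity)
  have hfin := sens_law w hm hflip hK
  calc (n : ℝ) * γ ^ (d + 1) = (n * γ ^ d) * γ := by ring
    _ ≤ ((2 ^ 60 * (l * u ^ 3)) ^ d * (st ρ).card) * γ := mul_le_mul_of_nonneg_right h1 hγ0.le
    _ = (2 ^ 60 * (l * u ^ 3)) ^ d * (γ * (st ρ).card) := by ring
    _ ≤ _ := mul_le_mul_of_nonneg_left hfin (by positivity)

/-- `f` is unate: for every coordinate it is monotone or antitone in this coordinate -/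
def Unate (f : (Fin n → Bool) → Bool) : Prop :=
  ∃ σ : Fin n → Bool, ∀ x y : Fin n → Bool, (∀ i, x i = y i ∨ y i = σ i) → f x = true → f y = true

theorem unate_sens {f : (Fin n → Bool) → Bool} (hf : Unate f) :
    ∑ x, (((univ : Finset (Fin n)).filter fun j => f (Y601.SSE.flip j x) ≠ f x).card : ℝ) ≤
      Real.sqrt n * 2 ^ n := by
  obtain ⟨σ, hσ⟩ := hf
  obtain ⟨v, hv⟩ : ∃ v : Fin n → (Fin n → Bool) → ℝ,
    v = fun j x => if x j = σ j then 1 else -1 := ⟨_, rfl⟩
  obtain ⟨g, hg⟩ : ∃ g : (Fin n → Bool) → ℝ, g = fun x => if f x = true then 1 else -1 :=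
    ⟨_, rfl⟩
  have hvf : ∀ j x, v j (Y601.SSE.flip j x) = - v j x := by
    intro j x
    rw [hv]
    show (if Y601.SSE.flip j x j = σ j then (1 : ℝ) else -1) = - if x j = σ j then (1 : ℝ) else -1
    unfold Y601.SSE.flip
    rw [Function.update_self]
    cases x j <;> cases σ j <;> simp
  have hvn : ∀ j k x, j ≠ k → v k (Y601.SSE.flip j x) = v k x := by
    intro j k x hjk
    rw [hv]
    show (if Y601.SSE.flip j x k = σ k then (1 : ℝ) else -1) = if x k = σ k then (1 : ℝ) else -1
    unfold Y601.SSE.flip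
    rw [Function.update_of_ne hjk.symm]
  have hvs : ∀ j x, v j x * v j x = 1 := by
    intro j x
    rw [hv]
    show (if x j = σ j then (1 : ℝ) else -1) * (if x j = σ j then (1 : ℝ) else -1) = 1
    split_ifs <;> norm_num
  have hinv : ∀ (j : Fin n) (φ : (Fin n → Bool) → ℝ),
      ∑ x, φ (Y601.SSE.flip j x) = ∑ x, φ x := by
    intro j φ
    exact Fintype.sum_equiv ⟨Y601.SSE.flip j, Y601.SSE.flip j, Y601.SSE.flip_flip j,
      Y601.SSE.flip_flip j⟩ _ _ fun x => rfl
  -- one direction
  have h1 : ∀ j, ∑ x, (if f (Y601.SSE.flip j x) ≠ f x then (1 : ℝ) else 0) =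
      ∑ x, g x * v j x := by
    intro j
    have e1 : ∀ x, (if f (Y601.SSE.flip j x) ≠ f x then (1 : ℝ) else 0) =
        (g x * v j x + g (Y601.SSE.flip j x) * v j (Y601.SSE.flip j x)) / 2 := by
      intro x
      rw [hvf]
      rw [hg]
      show (if f (Y601.SSE.flip j x) ≠ f x then (1 : ℝ) else 0) =
        ((if f x = true then (1 : ℝ) else -1) * v j x +
        (if f (Y601.SSE.flip j x) = true then (1 : ℝ) else -1) * -v j x) / 2
      rw [hv]
      show (if f (Y601.SSE.flip j x) ≠ f x then (1 : ℝ) else 0) =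
        ((if f x = true then (1 : ℝ) else -1) * (if x j = σ j then (1 : ℝ) else -1) +
        (if f (Y601.SSE.flip j x) = true then (1 : ℝ) else -1) *
          -(if x j = σ j then (1 : ℝ) else -1)) / 2
      by_cases hx : x j = σ j
      · -- the flipped point is smaller
        have e2 : f (Y601.SSE.flip j x) = true → f x = true := by
          apply hσ
          intro i
          by_cases hi : i = j
          · subst hi
            exact Or.inr hx
          · left
            unfold Y601.SSE.flip
            rw [Function.update_of_ne hi]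
        rw [if_pos hx]
        cases hfx : f x <;> cases hfy : f (Y601.SSE.flip j x)
        · norm_num
        · exact absurd (e2 hfy) (by rw [hfx]; simp)
        · norm_num
        · norm_num
      · have e2 : f x = true → f (Y601.SSE.flip j x) = true := by
          apply hσ
          intro i
          by_cases hi : i = j
          · subst hi
            right
            unfold Y601.SSE.flip
            rw [Function.update_self]
            cases h1 : x i <;> cases h2 : σ i <;> simp_all
          · left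
            unfold Y601.SSE.flip
            rw [Function.update_of_ne hi]
        rw [if_neg hx]
        cases hfx : f x <;> cases hfy : f (Y601.SSE.flip j x)
        · norm_num
        · norm_num
        · exact absurd (e2 hfx) (by rw [hfy]; simp)
        · norm_num
    rw [sum_congr rfl fun x _ => e1 x, ← sum_div, sum_add_distrib,
      hinv j fun x => g x * v j x]
    ring
  have h2 : ∑ x, (((univ : Finset (Fin n)).filter fun j =>
      f (Y601.SSE.flip j x) ≠ f x).card : ℝ) = ∑ x, g x * ∑ j, v j x := by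
    have e1 : ∀ x, (((univ : Finset (Fin n)).filter fun j =>
        f (Y601.SSE.flip j x) ≠ f x).card : ℝ) =
        ∑ j, if f (Y601.SSE.flip j x) ≠ f x then (1 : ℝ) else 0 := by
      intro x
      rw [card_filter]
      push_cast
      rfl
    rw [sum_congr rfl fun x _ => e1 x, sum_comm, sum_congr rfl fun j _ => h1 j, sum_comm]
    refine sum_congr rfl fun x _ => ?_
    rw [mul_sum]
  have horth : ∑ x, (∑ j, v j x) ^ 2 = n * 2 ^ n := by
    have e1 : ∀ x, (∑ j, v j x) ^ 2 = ∑ j, ∑ k, v j x * v k x := by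
      intro x
      rw [sq, sum_mul_sum]
    rw [sum_congr rfl fun x _ => e1 x, sum_comm]
    have e2 : ∀ j, ∑ x, ∑ k, v j x * v k x = 2 ^ n := by
      intro j
      rw [sum_comm, sum_eq_single j]
      · rw [sum_congr rfl fun x _ => hvs j x, sum_const, card_univ, Fintype.card_fun,
          Fintype.card_bool, Fintype.card_fin]
        simp
      · intro k _ hk
        have e3 : ∑ x, v j x * v k x = - ∑ x, v j x * v k x := by
          conv_lhs => rw [← hinv j fun x => v j x * v k x]
          rw [← sum_neg_distrib]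
          refine sum_congr rfl fun x _ => ?_
          show v j (Y601.SSE.flip j x) * v k (Y601.SSE.flip j x) = -(v j x * v k x)
          rw [hvf, hvn j k x hk.symm]
          ring
        linarith
      · intro h
        exact absurd (mem_univ j) h
    rw [sum_congr rfl fun j _ => e2 j, sum_const, card_univ, Fintype.card_fin, nsmul_eq_mul]
  rw [h2]
  have hg1 : ∀ x, g x ^ 2 = 1 := by
    intro x
    rw [hg]
    show (if f x = true then (1 : ℝ) else -1) ^ 2 = 1
    split_ifs <;> norm_num
  have h3 : (∑ x, g x * ∑ j, v j x) ^ 2 ≤ (∑ x, g x ^ 2) * ∑ x, (∑ j, v j x) ^ 2 :=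
    sum_mul_sq_le_sq_mul_sq _ _ _
  rw [horth, sum_congr rfl fun x _ => hg1 x, sum_const, card_univ, Fintype.card_fun,
    Fintype.card_bool, Fintype.card_fin, nsmul_eq_mul, mul_one] at h3
  apply le_of_sq_le_sq _ (by positivity)
  refine h3.trans (le_of_eq ?_)
  rw [mul_pow, Real.sq_sqrt (Nat.cast_nonneg _)]
  push_cast
  ring

/-- Reductions whose query bits are unate. -/
theorem unate_bound (w : (Fin n → Bool) → Fin m → Fin l → Bool)
    (hu : ∀ i c, Unate fun x => w x i c) {γ : ℝ} (hn : 0 < n) (hγ0 : 0 < γ)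
    (hgap : ∀ m b c, Y m b → Z m c → γ * m ≤ ((univ.filter fun i => b i ≠ c i).card : ℝ))
    (hpos : ∀ m b, Y m b → 0 < m)
    (hyes : ∀ x, ¬ Odd (univ.filter fun i => x i = true).card → Y m (w x))
    (hno : ∀ x, Odd (univ.filter fun i => x i = true).card → Z m (w x)) :
    γ ^ 2 * n ≤ l ^ 2 := by
  have hm : 0 < m := by
    apply hpos _ _ (hyes (fun _ => false) _)
    simp
  have hflip : ∀ x, ∀ j ∈ (univ : Finset (Fin n)), γ * m ≤
      ((univ.filter fun i => w x i ≠ w (Y601.SSE.flip j x) i).card : ℝ) := by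
    intro x j _
    by_cases hodd : Odd (univ.filter fun i => x i = true).card
    · have e3 := hgap m _ _ (hyes (Y601.SSE.flip j x) (by
        rw [Y601.SSE.odd_flip]; exact not_not.2 hodd)) (hno x hodd)
      refine e3.trans (le_of_eq ?_)
      congr 2
      ext i
      simp only [mem_filter, mem_univ, true_and]
      exact ne_comm
    · exact hgap m _ _ (hyes x hodd) (hno _ (by rw [Y601.SSE.odd_flip]; exact hodd))
  have hfin := sens_law w hm hflip fun i c => unate_sens (hu i c)
  rw [card_univ, Fintype.card_fin] at hfin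
  have hn0 : (0 : ℝ) < n := by exact_mod_cast hn
  obtain ⟨r, hr⟩ : ∃ r, r = Real.sqrt n := ⟨_, rfl⟩
  have hr0 : 0 < r := by rw [hr]; exact Real.sqrt_pos.2 hn0
  have hr2 : r * r = n := by rw [hr]; exact Real.mul_self_sqrt hn0.le
  rw [← hr] at hfin
  have h1 : γ * r ≤ l := by
    have : (γ * r) * r ≤ l * r := by
      calc (γ * r) * r = γ * (r * r) := by ring
        _ = γ * n := by rw [hr2]
        _ ≤ _ := hfin
    exact le_of_mul_le_mul_right this hr0
  calc γ ^ 2 * n = (γ * r) ^ 2 := by rw [← hr2]; ring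
    _ ≤ (l : ℝ) ^ 2 := pow_le_pow_left₀ (by positivity) h1 2

end Pool.Agent.N587.FX
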