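import Pool.Agent.N587.FX.Asym
import Pool.Agent.N587.OX.Asym

set_option autoImplicit false
set_option linter.unusedSectionVars false

/-!
Weighted vertex cover: words which encode yes- and no-instances differ in many symbols.
-/

namespace Pool.Agent.N587.FX

open Finset

/-- A symbol of an instance of weighted vertex cover: the total weight of all vertices, an edge with
the ends `u` and `v`, and the weights of `u` and `v`. -/
structure VSym (U : Type) where
  total : ℚ
  u : U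
  v : U
  wu : ℚ
  wv : ℚ

/-- A graph with `m` edges `E i` and weights `w`, where the lighter end of an edge has at most `ρ / m`
times the total weight. -/
structure VGraph (U : Type) [Fintype U] (ρ : ℝ) (m : ℕ) where
  w : U → ℚ
  E : Fin m → U × U
  nonneg : ∀ v, 0 ≤ w v
  pos : 0 < ∑ v, w v
  spread : ∀ i, (min (w (E i).1) (w (E i).2) : ℝ) * m ≤ ρ * ((∑ v, w v : ℚ) : ℝ)

variable {U : Type} [Fintype U] {ρ : ℝ} {m l : ℕ}

/-- `S` is a vertex cover -/
def VGraph.Cover (G : VGraph U ρ m) (S : Finset U) : Prop :=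
  ∀ i, (G.E i).1 ∈ S ∨ (G.E i).2 ∈ S

/-- the word `a` encodes the graph `G`, symbol `i` the edge `i` -/
def Enc (dec : (Fin l → Bool) → Option (VSym U)) (G : VGraph U ρ m) (a : Fin m → Fin l → Bool) :
    Prop :=
  ∀ i, dec (a i) = some ⟨∑ v, G.w v, (G.E i).1, (G.E i).2, G.w (G.E i).1, G.w (G.E i).2⟩

/-- the word encodes a graph with a vertex cover of at most `α` times the total weight -/
def VYes (dec : (Fin l → Bool) → Option (VSym U)) (ρ α : ℝ) (m : ℕ) (a : Fin m → Fin l → Bool) :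
    Prop :=
  0 < m ∧ ∃ G : VGraph U ρ m, Enc dec G a ∧
    ∃ S : Finset U, G.Cover S ∧ ((∑ v ∈ S, G.w v : ℚ) : ℝ) ≤ α * ((∑ v, G.w v : ℚ) : ℝ)

/-- the word encodes a graph all of whose vertex covers have at least `β` times the total weight -/
def VNo (dec : (Fin l → Bool) → Option (VSym U)) (ρ β : ℝ) (m : ℕ) (a : Fin m → Fin l → Bool) :
    Prop :=
  0 < m ∧ ∃ G : VGraph U ρ m, Enc dec G a ∧
    ∀ S : Finset U, G.Cover S → β * ((∑ v, G.w v : ℚ) : ℝ) ≤ ((∑ v ∈ S, G.w v : ℚ) : ℝ)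

open scoped Classical in
theorem vgap (dec : (Fin l → Bool) → Option (VSym U)) {α β : ℝ} (hρ : 0 < ρ) (hαβ : β - α ≤ ρ)
    {a b : Fin m → Fin l → Bool} (ha : VYes dec ρ α m a) (hb : VNo dec ρ β m b) :
    (β - α) / ρ * m ≤ ((univ.filter fun i => a i ≠ b i).card : ℝ) := by
  obtain ⟨hm, G, hG, S, hS, hSw⟩ := ha
  obtain ⟨_, H, hH, hno⟩ := hb
  have hm0 : (0 : ℝ) < m := by exact_mod_cast hm
  obtain ⟨D, hD⟩ : ∃ D : Finset (Fin m), D = univ.filter fun i => a i ≠ b i := ⟨_, rfl⟩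
  rw [← hD]
  by_cases hall : D = univ
  · rw [hall, card_univ, Fintype.card_fin]
    have : (β - α) / ρ ≤ 1 := by rw [div_le_one hρ]; exact hαβ
    calc (β - α) / ρ * m ≤ 1 * m := mul_le_mul_of_nonneg_right this hm0.le
      _ = m := one_mul _
  -- equal symbols
  have hsame : ∀ i, i ∉ D → (∑ v, G.w v = ∑ v, H.w v) ∧ G.E i = H.E i ∧
      G.w (H.E i).1 = H.w (H.E i).1 ∧ G.w (H.E i).2 = H.w (H.E i).2 := by
    intro i hi
    have h1 : a i = b i := by
      by_contra h
      exact hi (by rw [hD, mem_filter]; exact ⟨mem_univ _, h⟩)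
    have h2 := hG i
    rw [h1, hH i] at h2
    have h3 := Option.some.inj h2
    have e1 := congrArg VSym.total h3
    have e2 := congrArg VSym.u h3
    have e3 := congrArg VSym.v h3
    have e4 := congrArg VSym.wu h3
    have e5 := congrArg VSym.wv h3
    simp only at e1 e2 e3 e4 e5
    refine ⟨e1.symm, Prod.ext e2.symm e3.symm, ?_, ?_⟩
    · rw [e4, ← e2]
    · rw [e5, ← e3]
  obtain ⟨i0, hi0⟩ : ∃ i, i ∉ D := by
    by_contra hcon
    push Not at hcon
    exact hall (eq_univ_iff_forall.2 hcon)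
  have hW := (hsame i0 hi0).1
  obtain ⟨W, hWd⟩ : ∃ W : ℝ, W = ((∑ v, H.w v : ℚ) : ℝ) := ⟨_, rfl⟩
  have hW0 : 0 < W := by rw [hWd]; exact_mod_cast H.pos
  -- the lighter ends
  obtain ⟨lt, hlt⟩ : ∃ lt : Fin m → U,
    lt = fun i => if H.w (H.E i).1 ≤ H.w (H.E i).2 then (H.E i).1 else (H.E i).2 := ⟨_, rfl⟩
  have hltw : ∀ i, H.w (lt i) = min (H.w (H.E i).1) (H.w (H.E i).2) := by
    intro i
    rw [hlt]
    show H.w (if H.w (H.E i).1 ≤ H.w (H.E i).2 then (H.E i).1 else (H.E i).2) = _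
    split_ifs with h
    · rw [min_eq_left h]
    · rw [min_eq_right (le_of_not_ge h)]
  have hltm : ∀ i, lt i = (H.E i).1 ∨ lt i = (H.E i).2 := by
    intro i
    rw [hlt]
    show (if H.w (H.E i).1 ≤ H.w (H.E i).2 then (H.E i).1 else (H.E i).2) = _ ∨
      (if H.w (H.E i).1 ≤ H.w (H.E i).2 then (H.E i).1 else (H.E i).2) = _
    split_ifs
    · exact Or.inl rfl
    · exact Or.inr rfl
  obtain ⟨S1, hS1⟩ : ∃ S1 : Finset U,
    S1 = S.filter fun v => ∃ i, i ∉ D ∧ (v = (H.E i).1 ∨ v = (H.E i).2) := ⟨_, rfl⟩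
  have hcov : H.Cover (S1 ∪ D.image lt) := by
    intro i
    by_cases hi : i ∈ D
    · rcases hltm i with h | h
      · left
        rw [← h]
        exact mem_union_right _ (mem_image_of_mem _ hi)
      · right
        rw [← h]
        exact mem_union_right _ (mem_image_of_mem _ hi)
    · have h1 := hS i
      rw [(hsame i hi).2.1] at h1
      rcases h1 with h | h
      · left
        refine mem_union_left _ ?_
        rw [hS1, mem_filter]
        exact ⟨h, i, hi, Or.inl rfl⟩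
      · right
        refine mem_union_left _ ?_
        rw [hS1, mem_filter]
        exact ⟨h, i, hi, Or.inr rfl⟩
  have h1 := hno _ hcov
  have h2 : (∑ v ∈ S1 ∪ D.image lt, H.w v) ≤ ∑ v ∈ S, G.w v + ∑ i ∈ D, H.w (lt i) := by
    have e1 : (∑ v ∈ S1 ∪ D.image lt, H.w v) ≤ ∑ v ∈ S1, H.w v + ∑ v ∈ D.image lt, H.w v := by
      rw [← sum_union_inter]
      have : 0 ≤ ∑ v ∈ S1 ∩ D.image lt, H.w v := sum_nonneg fun v _ => H.nonneg v
      linarith
    have e2 : ∑ v ∈ D.image lt, H.w v ≤ ∑ i ∈ D, H.w (lt i) := by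
      apply sum_image_le_of_nonneg
      intro v _
      exact H.nonneg _
    have e3 : ∑ v ∈ S1, H.w v ≤ ∑ v ∈ S, G.w v := by
      have : ∑ v ∈ S1, H.w v = ∑ v ∈ S1, G.w v := by
        refine sum_congr rfl fun v hv => ?_
        rw [hS1, mem_filter] at hv
        obtain ⟨_, i, hi, h | h⟩ := hv
        · rw [h]; exact (hsame i hi).2.2.1.symm
        · rw [h]; exact (hsame i hi).2.2.2.symm
      rw [this]
      apply sum_le_sum_of_subset_of_nonneg
      · rw [hS1]; exact filter_subset _ _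
      · intro v _ _
        exact G.nonneg v
    linarith
  have h3 : ((∑ i ∈ D, H.w (lt i) : ℚ) : ℝ) * m ≤ D.card * (ρ * W) := by
    push_cast
    rw [sum_mul, ← nsmul_eq_mul]
    apply sum_le_card_nsmul
    intro i _
    rw [hltw, hWd]
    push_cast
    exact_mod_cast H.spread i
  have h4 : ((∑ v ∈ S1 ∪ D.image lt, H.w v : ℚ) : ℝ) ≤
      ((∑ v ∈ S, G.w v : ℚ) : ℝ) + ((∑ i ∈ D, H.w (lt i) : ℚ) : ℝ) := by
    exact_mod_cast h2
  rw [hW] at hSw
  rw [← hWd] at hSw h1
  have h5 : (β - α) * W ≤ ((∑ i ∈ D, H.w (lt i) : ℚ) : ℝ) := by linarith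
  have h6 : (β - α) * m * W ≤ (D.card * ρ) * W := by
    calc (β - α) * m * W = ((β - α) * W) * m := by ring
      _ ≤ ((∑ i ∈ D, H.w (lt i) : ℚ) : ℝ) * m := mul_le_mul_of_nonneg_right h5 hm0.le
      _ ≤ _ := h3
      _ = _ := by ring
  have h7 := le_of_mul_le_mul_right h6 hW0
  rw [div_mul_eq_mul_div, div_le_iff₀ hρ]
  exact h7

end Pool.Agent.N587.FX
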